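import Mathlib
import Pool.Agent.H22.Scott2

namespace Pool.Agent.Results.MP_997916_al.CoreFree

open Pool.Agent.H22.Scott2

theorem result : ∃ (G : Type) (_ : Group G) (_ : Finite G) (G₁ G₂ : Subgroup G),
    (∀ N : Subgroup G, N.Normal → N ≤ G₁ → N = ⊥) ∧
    (∀ N : Subgroup G, N.Normal → N ≤ G₂ → N = ⊥) ∧
    Nonempty ((Representation.ofMulAction ℤ G (G ⧸ G₁)).Equiv
      (Representation.ofMulAction ℤ G (G ⧸ G₂))) ∧
    IsEmpty (G₁ ≃* G₂) := by
  refine ⟨Γ, inferInstance, inferInstance, MulAction.stabilizer Γ y1, MulAction.stabilizer Γ y2,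
    fun N hN h => ?_, fun N hN h => ?_, coset_equiv y1 y2 trY1 trY2 E E_act,
    ⟨fun e => nPr2 (Pr_congr e Pr1)⟩⟩
  · exact eq_bot_iff.2 (core1 ▸ Subgroup.normal_le_normalCore.2 h)
  · exact eq_bot_iff.2 (core2 ▸ Subgroup.normal_le_normalCore.2 h)

end Pool.Agent.Results.MP_997916_al.CoreFree
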